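import Mathlib
import Pool.Agent.Helper31.GZ.Brouwer

/-!
# A cross-polytope with a maximal facet is essential

`X` is the geometric realisation of a finite simplicial complex with vertex set `V`, in the
coordinate space `V → ℝ`.  Suppose `v j, v' j` (`j : Fin (m + 1)`) are vertices such that every
choice of one out of each pair spans a simplex, and that the classes `c u = some j` of vertices are
such that every simplex meeting all classes consists of classified vertices.  Then `π_m` of `X` does
not vanish.
-/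

set_option autoImplicit false

open Set Finset
open scoped unitInterval Topology

namespace Pool.Agent.W623.VR

variable {V : Type*} [Fintype V] [DecidableEq V]

/-- the geometric realisation -/
def real (K : Finset V → Prop) : Set (V → ℝ) :=
  ⋃ (T : Finset V) (_ : K T), convexHull ℝ ((fun v : V => (Pi.single v (1 : ℝ) : V → ℝ)) '' (T : Set V))

lemma mem_real {K : Finset V → Prop} {z : V → ℝ} (hz : z ∈ real K) :
    ∃ T, K T ∧ (∀ u, 0 ≤ z u) ∧ (∑ u, z u = 1) ∧ ∀ u, u ∉ T → z u = 0 := by
  simp only [real, mem_iUnion] at hz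
  obtain ⟨T, hT, hz⟩ := hz
  refine ⟨T, hT, ?_⟩
  have hC : Convex ℝ {z : V → ℝ | (∀ u, 0 ≤ z u) ∧ (∑ u, z u = 1) ∧ ∀ u, u ∉ T → z u = 0} := by
    intro x hx y hy a b ha hb hab
    refine ⟨fun u => ?_, ?_, fun u hu => ?_⟩
    · simp only [Pi.add_apply, Pi.smul_apply, smul_eq_mul]
      exact add_nonneg (mul_nonneg ha (hx.1 u)) (mul_nonneg hb (hy.1 u))
    · simp only [Pi.add_apply, Pi.smul_apply, smul_eq_mul, Finset.sum_add_distrib,
        ← Finset.mul_sum, hx.2.1, hy.2.1]
      linarith
    · simp [hx.2.2 u hu, hy.2.2 u hu]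
  refine convexHull_min ?_ hC hz
  rintro _ ⟨v, hv, rfl⟩
  refine ⟨fun u => ?_, ?_, fun u hu => ?_⟩
  · simp only [Pi.single_apply]
    split_ifs <;> norm_num
  · simp
  · have : u ≠ v := fun h => hu (h ▸ hv)
    simp [Pi.single_apply, this]

/-- the coordinates of the classes -/
noncomputable def cls {m : ℕ} (c : V → Option (Fin (m + 1))) (z : V → ℝ) (j : Fin (m + 1)) : ℝ :=
  ∑ u, if c u = some j then z u else 0

noncomputable def mn {m : ℕ} (s : Fin (m + 1) → ℝ) : ℝ :=
  Finset.univ.inf' ⟨0, Finset.mem_univ _⟩ s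

lemma mn_le {m : ℕ} (s : Fin (m + 1) → ℝ) (j : Fin (m + 1)) : mn s ≤ s j :=
  Finset.inf'_le _ (Finset.mem_univ j)

lemma exists_mn {m : ℕ} (s : Fin (m + 1) → ℝ) : ∃ j, mn s = s j := by
  obtain ⟨j, _, hj⟩ := Finset.exists_mem_eq_inf' (s := (Finset.univ : Finset (Fin (m + 1))))
    ⟨0, Finset.mem_univ _⟩ s
  exact ⟨j, hj⟩

lemma mn_const {m : ℕ} (s : Fin (m + 1) → ℝ) (a : ℝ) (h : ∀ j, s j = a) : mn s = a := by
  obtain ⟨j, hj⟩ := exists_mn s
  rw [hj, h]

/-- the map to Euclidean space -/
noncomputable def Phi {m : ℕ} (s : Fin (m + 1) → ℝ) (j : Fin (m + 1)) : ℝ :=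
  s j - (1 - (m + 1) * mn s)

lemma continuous_cls {m : ℕ} (c : V → Option (Fin (m + 1))) :
    Continuous (cls c) := by
  refine continuous_pi fun j => ?_
  unfold cls
  refine continuous_finsetSum _ fun u _ => ?_
  split_ifs
  · exact continuous_apply u
  · exact continuous_const

lemma continuous_mn {m : ℕ} : Continuous (mn (m := m)) := by
  unfold mn
  exact Continuous.finset_inf'_apply _ fun j _ => continuous_apply j

lemma continuous_Phi {m : ℕ} : Continuous (Phi (m := m)) := by
  refine continuous_pi fun j => ?_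
  unfold Phi
  exact (continuous_apply j).sub (continuous_const.sub (continuous_const.mul continuous_mn))

lemma Phi_ne_zero {m : ℕ} {K : Finset V → Prop} (c : V → Option (Fin (m + 1)))
    (hmax : ∀ T, K T → (∀ j, ∃ u ∈ T, c u = some j) → ∀ u ∈ T, c u ≠ none)
    {z : V → ℝ} (hz : z ∈ real K) (h : ∀ j, Phi (cls c z) j = 0) : False := by
  obtain ⟨T, hT, h0, h1, h2⟩ := mem_real hz
  have hm : (0 : ℝ) < (m : ℝ) + 1 := by positivity
  obtain ⟨j0, hj0⟩ := exists_mn (cls c z)
  have hs : ∀ j, cls c z j = 1 - (m + 1) * mn (cls c z) := fun j => by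
    have := h j
    unfold Phi at this
    linarith
  have hmn : mn (cls c z) = 1 - (m + 1) * mn (cls c z) := by
    rw [← hs j0]; exact hj0
  have hval : (m + 2) * mn (cls c z) = 1 := by linarith
  have hpos : 0 < mn (cls c z) := by
    by_contra hneg
    push Not at hneg
    have : (m + 2 : ℝ) * mn (cls c z) ≤ 0 := mul_nonpos_of_nonneg_of_nonpos (by positivity) hneg
    linarith
  have hall : ∀ j, cls c z j = mn (cls c z) := fun j => by rw [hs j, ← hmn]
  have hex : ∀ j, ∃ u ∈ T, c u = some j := by
    intro j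
    by_contra hcon
    push Not at hcon
    have : cls c z j = 0 := by
      unfold cls
      refine Finset.sum_eq_zero fun u _ => ?_
      split_ifs with hu
      · exact h2 u fun hmem => hcon u hmem hu
      · rfl
    rw [hall j] at this
    linarith
  have hc := hmax T hT hex
  have hsum : ∑ j, cls c z j = 1 := by
    unfold cls
    rw [Finset.sum_comm, ← h1]
    refine Finset.sum_congr rfl fun u _ => ?_
    by_cases hu : u ∈ T
    · obtain ⟨j, hj⟩ := Option.ne_none_iff_exists'.1 (hc u hu)
      rw [Finset.sum_eq_single j]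
      · simp [hj]
      · intro k _ hk
        rw [if_neg]
        rw [hj]
        intro h'
        exact hk (Option.some.inj h').symm
      · simp
    · rw [h2 u hu]
      simp
  have : ∑ j : Fin (m + 1), cls c z j = (m + 1) * mn (cls c z) := by
    rw [Finset.sum_congr rfl fun j _ => hall j]
    simp
  rw [hsum] at this
  linarith

/-- the coordinates `w` of a point of the cube: last coordinate makes the sum vanish -/
noncomputable def ww {m : ℕ} (y : Fin m → ℝ) : Fin (m + 1) → ℝ :=
  Fin.snoc (α := fun _ => ℝ) y (-∑ i, y i)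

@[simp] lemma ww_castSucc {m : ℕ} (y : Fin m → ℝ) (i : Fin m) : ww y i.castSucc = y i := by
  simp [ww]

@[simp] lemma ww_last {m : ℕ} (y : Fin m → ℝ) : ww y (Fin.last m) = -∑ i, y i := by
  simp [ww]

lemma sum_ww {m : ℕ} (y : Fin m → ℝ) : ∑ j, ww y j = 0 := by
  rw [Fin.sum_univ_castSucc]
  simp

lemma continuous_ww {m : ℕ} : Continuous (ww (m := m)) := by
  refine continuous_pi fun j => ?_
  refine Fin.lastCases ?_ (fun i => ?_) j
  · simp only [ww_last]
    exact (continuous_finsetSum _ fun i _ => continuous_apply i).neg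
  · simp only [ww_castSucc]
    exact continuous_apply i

/-- the direction map -/
noncomputable def gg {m : ℕ} (y : Fin m → ℝ) (j : Fin (m + 1)) : ℝ :=
  (1 - 2 * ‖y‖) + (1 - ‖y‖) * ww y j

lemma continuous_gg {m : ℕ} : Continuous (gg (m := m)) := by
  refine continuous_pi fun j => ?_
  unfold gg
  exact (continuous_const.sub (continuous_const.mul continuous_norm)).add
    ((continuous_const.sub continuous_norm).mul ((continuous_apply j).comp continuous_ww))

lemma gg_ne {m : ℕ} (y : Fin m → ℝ) : ∃ j, gg y j ≠ 0 := by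
  by_contra hcon
  push Not at hcon
  have hs : ∑ j, gg y j = (m + 1) * (1 - 2 * ‖y‖) := by
    unfold gg
    rw [Finset.sum_add_distrib, ← Finset.mul_sum, sum_ww]
    simp
    ring
  rw [Finset.sum_eq_zero fun j _ => hcon j] at hs
  have hm : ((m : ℝ) + 1) ≠ 0 := by positivity
  have h2 : 1 - 2 * ‖y‖ = 0 := by
    rcases mul_eq_zero.1 hs.symm with h | h
    · exact absurd h hm
    · exact h
  have h3 : ‖y‖ = 1 / 2 := by linarith
  have h4 : y = 0 := by
    funext i
    have := hcon i.castSucc
    unfold gg at this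
    rw [h2, h3, ww_castSucc] at this
    simp only [Pi.zero_apply]
    linarith
  rw [h4, norm_zero] at h3
  norm_num at h3

noncomputable def SS {m : ℕ} (g : Fin (m + 1) → ℝ) : ℝ := ∑ j, |g j|

lemma SS_pos {m : ℕ} (y : Fin m → ℝ) : 0 < SS (gg y) := by
  obtain ⟨j, hj⟩ := gg_ne y
  unfold SS
  exact Finset.sum_pos' (fun i _ => abs_nonneg _) ⟨j, Finset.mem_univ _, abs_pos.2 hj⟩

lemma continuous_SS {m : ℕ} : Continuous (SS (m := m)) := by
  unfold SS
  exact continuous_finsetSum _ fun j _ => (continuous_apply j).abs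

/-- the point of the realisation -/
noncomputable def pt {m : ℕ} (v v' : Fin (m + 1) → V) (g : Fin (m + 1) → ℝ) : V → ℝ :=
  ∑ j, ((max (g j) 0 / SS g) • (Pi.single (v j) (1 : ℝ) : V → ℝ) +
    (max (-g j) 0 / SS g) • (Pi.single (v' j) (1 : ℝ) : V → ℝ))

lemma pt_mem {m : ℕ} {K : Finset V → Prop} (v v' : Fin (m + 1) → V)
    (hK : ∀ e : Fin (m + 1) → Bool, K (Finset.univ.image fun j => if e j then v j else v' j))
    (g : Fin (m + 1) → ℝ) (hg : 0 < SS g) : pt v v' g ∈ real K := by
  classical
  simp only [real, mem_iUnion]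
  refine ⟨_, hK fun j => decide (0 ≤ g j), ?_⟩
  have hrw : pt v v' g = ∑ j, (|g j| / SS g) •
      (Pi.single (if (decide (0 ≤ g j) : Bool) then v j else v' j) (1 : ℝ) : V → ℝ) := by
    unfold pt
    refine Finset.sum_congr rfl fun j _ => ?_
    by_cases h : 0 ≤ g j
    · simp [h, abs_of_nonneg h]
    · push Not at h
      simp [h.le, not_le.2 h, abs_of_neg h]
  rw [hrw]
  refine (convex_convexHull ℝ _).sum_mem (fun j _ => by positivity) ?_ fun j _ => ?_
  · rw [← Finset.sum_div]
    exact div_self hg.ne'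
  · refine subset_convexHull ℝ _ ⟨_, ?_, rfl⟩
    rw [Finset.mem_coe, Finset.mem_image]
    exact ⟨j, Finset.mem_univ _, rfl⟩

lemma cls_pt {m : ℕ} (c : V → Option (Fin (m + 1))) (v v' : Fin (m + 1) → V)
    (hv : ∀ j, c (v j) = some j) (hv' : ∀ j, c (v' j) = none) (g : Fin (m + 1) → ℝ)
    (j : Fin (m + 1)) : cls c (pt v v' g) j = max (g j) 0 / SS g := by
  classical
  unfold cls pt
  have h1 : ∀ u : V, (if c u = some j then
      (∑ k, ((max (g k) 0 / SS g) • (Pi.single (v k) (1 : ℝ) : V → ℝ) +
        (max (-g k) 0 / SS g) • (Pi.single (v' k) (1 : ℝ) : V → ℝ))) u else 0) =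
      ∑ k, ((if u = v k then (if k = j then max (g k) 0 / SS g else 0) else 0)) := by
    intro u
    by_cases hu : c u = some j
    · rw [if_pos hu, Finset.sum_apply]
      refine Finset.sum_congr rfl fun k _ => ?_
      simp only [Pi.add_apply, Pi.smul_apply, smul_eq_mul]
      have h2 : u ≠ v' k := fun h => by
        rw [h, hv' k] at hu
        exact absurd hu (by simp)
      rw [Pi.single_eq_of_ne h2]
      by_cases h3 : u = v k
      · subst h3
        have h4 : k = j := by
          rw [hv k] at hu
          exact Option.some.inj hu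
        simp [h4]
      · rw [Pi.single_eq_of_ne h3, if_neg h3]
        ring
    · rw [if_neg hu]
      refine (Finset.sum_eq_zero fun k _ => ?_).symm
      by_cases h3 : u = v k
      · rw [if_pos h3, if_neg]
        intro h4
        apply hu
        rw [h3, hv k, h4]
      · rw [if_neg h3]
  rw [Finset.sum_congr rfl fun u _ => h1 u, Finset.sum_comm]
  simp

lemma continuous_pt {m : ℕ} (v v' : Fin (m + 1) → V) :
    Continuous fun y : Fin m → ℝ => pt v v' (gg y) := by
  unfold pt
  refine continuous_finsetSum _ fun j _ => ?_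
  have hS : Continuous fun y : Fin m → ℝ => SS (gg y) := continuous_SS.comp continuous_gg
  have hg : Continuous fun y : Fin m → ℝ => gg y j := (continuous_apply j).comp continuous_gg
  refine ((hg.max continuous_const).div hS fun y => (SS_pos y).ne').smul continuous_const |>.add ?_
  exact ((hg.neg.max continuous_const).div hS fun y => (SS_pos y).ne').smul continuous_const

/-- rescaling of the unit cube -/
def yy {m : ℕ} (y : Fin m → I) : Fin m → ℝ := fun i => 2 * (y i : ℝ) - 1

lemma continuous_yy {m : ℕ} : Continuous (yy (m := m)) := by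
  unfold yy
  fun_prop

lemma norm_yy_of_boundary {m : ℕ} {y : Fin m → I} (hy : y ∈ Cube.boundary (Fin m)) :
    ‖yy y‖ = 1 := by
  obtain ⟨i, hi⟩ := hy
  refine le_antisymm ?_ ?_
  · refine (pi_norm_le_iff_of_nonneg zero_le_one).2 fun j => ?_
    rw [Real.norm_eq_abs, abs_le]
    have h0 := (y j).2.1
    have h1 := (y j).2.2
    unfold yy
    constructor <;> linarith
  · have h := norm_le_pi_norm (yy y) i
    have h2 : ‖yy y i‖ = 1 := by
      unfold yy
      rcases hi with hi | hi
      · rw [hi]; norm_num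
      · rw [hi]; norm_num
    linarith

lemma gg_of_norm {m : ℕ} {y : Fin m → ℝ} (hy : ‖y‖ = 1) : gg y = fun _ => -1 := by
  funext j
  unfold gg
  rw [hy]
  ring

/-- mean value -/
noncomputable def mean {m : ℕ} (g : Fin (m + 1) → ℝ) : ℝ := (∑ j, g j) / (m + 1)

lemma continuous_mean {m : ℕ} : Continuous (mean (m := m)) := by
  unfold mean
  exact (continuous_finsetSum _ fun j _ => continuous_apply j).div_const _

/-- the linear coordinates -/
noncomputable def TT {m : ℕ} (g : Fin (m + 1) → ℝ) : (Fin m → ℝ) × ℝ :=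
  (fun i => g i.castSucc - mean g, - mean g)

lemma continuous_TT {m : ℕ} : Continuous (TT (m := m)) := by
  unfold TT
  refine Continuous.prodMk ?_ continuous_mean.neg
  exact continuous_pi fun i => (continuous_apply _).sub continuous_mean

lemma TT_eq_zero {m : ℕ} {g : Fin (m + 1) → ℝ} (h : TT g = 0) : ∀ j, g j = 0 := by
  have h1 : mean g = 0 := by
    have := congrArg Prod.snd h
    simpa [TT] using this
  have h2 : ∀ i : Fin m, g i.castSucc = 0 := fun i => by
    have := congrFun (congrArg Prod.fst h) i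
    simp only [TT, h1] at this
    simpa using this
  have h3 : ∑ j, g j = 0 := by
    unfold mean at h1
    rcases div_eq_zero_iff.1 h1 with h | h
    · exact h
    · exact absurd h (by positivity)
  rw [Fin.sum_univ_castSucc, Finset.sum_eq_zero fun i _ => h2 i, zero_add] at h3
  intro j
  exact Fin.lastCases h3 h2 j

/-- clamp to the unit interval -/
noncomputable def tcl (s : ℝ) : I := Set.projIcc 0 1 zero_le_one ((1 + s) / 2)

lemma continuous_tcl : Continuous tcl := by
  unfold tcl
  exact continuous_projIcc.comp (by fun_prop)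

lemma tcl_val {s : ℝ} (h0 : -1 ≤ s) (h1 : s ≤ 1) : ((tcl s : I) : ℝ) = (1 + s) / 2 := by
  unfold tcl
  rw [Set.projIcc_of_mem zero_le_one ⟨by linarith, by linarith⟩]

theorem not_subsingleton (m : ℕ) (K : Finset V → Prop) (c : V → Option (Fin (m + 1)))
    (v v' : Fin (m + 1) → V) (hv : ∀ j, c (v j) = some j) (hv' : ∀ j, c (v' j) = none)
    (hK : ∀ e : Fin (m + 1) → Bool, K (Finset.univ.image fun j => if e j then v j else v' j))
    (hmax : ∀ T, K T → (∀ j, ∃ u ∈ T, c u = some j) → ∀ u ∈ T, c u ≠ none) :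
    ∃ x : real K, ¬ Subsingleton (HomotopyGroup.Pi m (real K) x) := by
  have hSneg : SS (fun _ : Fin (m + 1) => (-1 : ℝ)) = m + 1 := by
    unfold SS
    simp
  have hSneg0 : 0 < SS (fun _ : Fin (m + 1) => (-1 : ℝ)) := by
    rw [hSneg]; positivity
  let x0 : real K := ⟨pt v v' (fun _ => -1), pt_mem v v' hK _ hSneg0⟩
  let p : C(Fin m → I, real K) :=
    ⟨fun y => ⟨pt v v' (gg (yy y)), pt_mem v v' hK _ (SS_pos _)⟩,
      Continuous.subtype_mk ((continuous_pt v v').comp continuous_yy) _⟩
  have hp : p ∈ GenLoop (Fin m) (real K) x0 := by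
    intro y hy
    apply Subtype.ext
    change pt v v' (gg (yy y)) = pt v v' (fun _ => -1)
    rw [gg_of_norm (norm_yy_of_boundary hy)]
  refine ⟨x0, fun hsub => ?_⟩
  have heq : (Quotient.mk (GenLoop.Homotopic.setoid (Fin m) x0) ⟨p, hp⟩ :
      HomotopyGroup (Fin m) (real K) x0) =
      Quotient.mk (GenLoop.Homotopic.setoid (Fin m) x0) GenLoop.const :=
    @Subsingleton.elim _ hsub _ _
  obtain ⟨H⟩ : (GenLoop.Homotopic (⟨p, hp⟩ : GenLoop (Fin m) (real K) x0) GenLoop.const) :=
    Quotient.exact heq
  -- the map on the cube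
  let ar : (Fin m → ℝ) × ℝ → I × (Fin m → I) := fun u => (tcl u.2, fun i => tcl (u.1 i))
  have har : Continuous ar := by
    refine Continuous.prodMk (continuous_tcl.comp continuous_snd) (continuous_pi fun i => ?_)
    exact continuous_tcl.comp ((continuous_apply i).comp continuous_fst)
  let G : (Fin m → ℝ) × ℝ → Fin (m + 1) → ℝ := fun u => Phi (cls c (H (ar u)).1)
  have hG : Continuous G :=
    continuous_Phi.comp ((continuous_cls c).comp (continuous_subtype_val.comp (H.continuous.comp har)))
  have hG0 : ∀ u, TT (G u) ≠ 0 := fun u h =>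
    Phi_ne_zero c hmax (H (ar u)).2 (TT_eq_zero h)
  have hGn : ∀ u, 0 < ‖TT (G u)‖ := fun u => norm_pos_iff.2 (hG0 u)
  obtain ⟨u, hu⟩ := Pool.Agent.Helper31.GZ.Brouwer.brouwer
    (fun u => -((‖TT (G u)‖)⁻¹ • TT (G u)))
    (((continuous_TT.comp hG).norm.inv₀ fun u => (hGn u).ne').smul (continuous_TT.comp hG)).neg 1
    (fun u => by
      rw [norm_neg, norm_smul, norm_inv, norm_norm, inv_mul_cancel₀ (hGn u).ne'])
  obtain ⟨M, hM⟩ : ∃ M : ℝ, M = ‖TT (G u)‖ := ⟨_, rfl⟩
  have hM0 : 0 < M := by rw [hM]; exact hGn u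
  have hu1 : ‖u‖ = 1 := by
    rw [← hu, norm_neg, norm_smul, norm_inv, norm_norm, inv_mul_cancel₀ (hGn u).ne']
  have hTu : TT (G u) = -(M • u) := by
    have h1 : M • u = -(TT (G u)) := by
      conv_lhs => rw [← hu]
      rw [← hM, smul_neg, smul_smul, mul_inv_cancel₀ hM0.ne', one_smul]
    rw [h1, neg_neg]
  have hT2 : mean (G u) = M * u.2 := by
    have := congrArg Prod.snd hTu
    simp only [TT, Prod.snd_neg, Prod.smul_snd, smul_eq_mul] at this
    linarith
  have hT1 : ∀ i : Fin m, G u i.castSucc = mean (G u) - M * u.1 i := fun i => by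
    have := congrFun (congrArg Prod.fst hTu) i
    simp only [TT, Prod.fst_neg, Prod.smul_fst, Pi.neg_apply, Pi.smul_apply, smul_eq_mul] at this
    linarith
  have hn1 : ‖u.1‖ ≤ 1 := (norm_fst_le u).trans hu1.le
  have hn2 : ‖u.2‖ ≤ 1 := (norm_snd_le u).trans hu1.le
  have hu2 : -1 ≤ u.2 ∧ u.2 ≤ 1 := abs_le.1 (by rwa [Real.norm_eq_abs] at hn2)
  have hui : ∀ i, -1 ≤ u.1 i ∧ u.1 i ≤ 1 := fun i => by
    have := (norm_le_pi_norm u.1 i).trans hn1
    rw [Real.norm_eq_abs] at this
    exact abs_le.1 this
  -- the point where the homotopy is constant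
  have hPx0 : Phi (cls c x0.1) = fun _ => -1 := by
    have h1 : ∀ j, cls c x0.1 j = 0 := fun j => by
      change cls c (pt v v' (fun _ => -1)) j = 0
      rw [cls_pt c v v' hv hv']
      simp
    funext j
    unfold Phi
    rw [h1 j, mn_const _ 0 h1]
    ring
  have hA : H (ar u) = x0 → u.2 < 0 ∧ u.1 = 0 := by
    intro h
    have h1 : G u = fun _ => -1 := by
      change Phi (cls c (H (ar u)).1) = _
      rw [h, hPx0]
    have h2 : mean (G u) = -1 := by
      rw [h1]
      unfold mean
      simp only [Finset.sum_const, Finset.card_univ, Fintype.card_fin, nsmul_eq_mul]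
      push_cast
      field_simp
    constructor
    · rw [h2] at hT2
      by_contra h3
      push Not at h3
      have := mul_nonneg hM0.le h3
      linarith
    · funext i
      have h3 := hT1 i
      rw [h2, h1] at h3
      have h4 : M * u.1 i = 0 := by linarith
      rcases mul_eq_zero.1 h4 with h5 | h5
      · exact absurd h5 hM0.ne'
      · exact h5
  -- boundary points
  have hbd : ‖u.1‖ ≠ 1 := by
    intro h
    have hex : ∃ i, |u.1 i| = 1 := by
      by_contra hcon
      push Not at hcon
      have hlt : ‖u.1‖ < 1 := by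
        refine (pi_norm_lt_iff zero_lt_one).2 fun i => ?_
        rw [Real.norm_eq_abs]
        exact lt_of_le_of_ne (abs_le.2 (hui i)) (hcon i)
      exact absurd h hlt.ne
    obtain ⟨i, hi⟩ := hex
    have hmem : (ar u).2 ∈ Cube.boundary (Fin m) := by
      refine ⟨i, ?_⟩
      have hval := tcl_val (hui i).1 (hui i).2
      rcases (abs_eq zero_le_one).1 hi with h1 | h1
      · right
        apply Subtype.ext
        change ((tcl (u.1 i) : I) : ℝ) = 1
        rw [hval, h1]; norm_num
      · left
        apply Subtype.ext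
        change ((tcl (u.1 i) : I) : ℝ) = 0
        rw [hval, h1]; norm_num
    have h2 : H (ar u) = x0 := by
      have h3 := H.eq_fst (ar u).1 hmem
      change H (ar u) = p (ar u).2 at h3
      rw [h3]
      exact hp _ hmem
    have h4 := (hA h2).2
    rw [h4, norm_zero] at h
    exact zero_ne_one h
  have hu2' : |u.2| = 1 := by
    rw [Prod.norm_def] at hu1
    rcases max_choice ‖u.1‖ ‖u.2‖ with h | h
    · rw [h] at hu1
      exact absurd hu1 hbd
    · rw [h, Real.norm_eq_abs] at hu1
      exact hu1
  rcases (abs_eq zero_le_one).1 hu2' with h1 | h1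
  · -- top face
    have h2 : H (ar u) = x0 := by
      have h3 : ar u = (1, (ar u).2) := by
        refine Prod.ext ?_ rfl
        apply Subtype.ext
        change ((tcl u.2 : I) : ℝ) = 1
        rw [tcl_val hu2.1 hu2.2, h1]; norm_num
      rw [h3, H.apply_one]
      rfl
    have := (hA h2).1
    linarith
  · -- bottom face
    have h3 : ar u = (0, (ar u).2) := by
      refine Prod.ext ?_ rfl
      apply Subtype.ext
      change ((tcl u.2 : I) : ℝ) = 0
      rw [tcl_val hu2.1 hu2.2, h1]; norm_num
    have h4 : yy (ar u).2 = u.1 := by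
      funext i
      change 2 * ((tcl (u.1 i) : I) : ℝ) - 1 = u.1 i
      rw [tcl_val (hui i).1 (hui i).2]
      ring
    have h5 : (H (ar u)).1 = pt v v' (gg u.1) := by
      rw [h3, H.apply_zero]
      change pt v v' (gg (yy (ar u).2)) = _
      rw [h4]
    have hcl : ∀ j, cls c (H (ar u)).1 j = max (gg u.1 j) 0 / SS (gg u.1) := fun j => by
      rw [h5, cls_pt c v v' hv hv']
    have hGw : ∀ j, G u j = -M * (1 + ww u.1 j) := by
      have hc : ∀ i : Fin m, G u i.castSucc = -M * (1 + ww u.1 i.castSucc) := fun i => by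
        rw [hT1 i, hT2, h1, ww_castSucc]
        ring
      intro j
      refine Fin.lastCases ?_ hc j
      have hs : ∑ j, G u j = (m + 1) * mean (G u) := by
        unfold mean
        field_simp
      rw [Fin.sum_univ_castSucc, Finset.sum_congr rfl fun i _ => hc i, ← Finset.mul_sum,
        Finset.sum_add_distrib, hT2, h1] at hs
      simp only [ww_castSucc, Finset.sum_const, Finset.card_univ, Fintype.card_fin, nsmul_eq_mul,
        mul_one] at hs
      rw [ww_last]
      linarith
    have hmono : ∀ i j, ww u.1 i ≤ ww u.1 j → ww u.1 i = ww u.1 j := by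
      intro i j hij
      have h6 : gg u.1 i ≤ gg u.1 j := by
        unfold gg
        have := mul_le_mul_of_nonneg_left hij (sub_nonneg.2 hn1)
        linarith
      have h7 : cls c (H (ar u)).1 i ≤ cls c (H (ar u)).1 j := by
        rw [hcl i, hcl j]
        exact div_le_div_of_nonneg_right (max_le_max h6 le_rfl) (SS_pos _).le
      have h8 : G u i ≤ G u j := by
        change cls c (H (ar u)).1 i - _ ≤ cls c (H (ar u)).1 j - _
        linarith
      rw [hGw i, hGw j] at h8
      nlinarith
    have hw0 : ∀ j, ww u.1 j = 0 := by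
      have hall : ∀ i j, ww u.1 i = ww u.1 j := fun i j => by
        rcases le_total (ww u.1 i) (ww u.1 j) with h | h
        · exact hmono i j h
        · exact (hmono j i h).symm
      intro j
      have hs := sum_ww u.1
      rw [Finset.sum_congr rfl fun i _ => hall i j] at hs
      simp only [Finset.sum_const, Finset.card_univ, Fintype.card_fin, nsmul_eq_mul] at hs
      rcases mul_eq_zero.1 hs with h | h
      · exact absurd h (by positivity)
      · exact h
    have hy0 : u.1 = 0 := by
      funext i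
      have := hw0 i.castSucc
      rwa [ww_castSucc] at this
    have hg1 : gg u.1 = fun _ => 1 := by
      funext j
      unfold gg
      rw [hw0 j, hy0, norm_zero]
      ring
    have hS1 : SS (gg u.1) = m + 1 := by
      rw [hg1]
      unfold SS
      simp
    have hcl1 : ∀ j, cls c (H (ar u)).1 j = 1 / (m + 1) := fun j => by
      rw [hcl j, hS1, hg1]
      simp
    have hG1 : G u 0 = 1 / (m + 1) := by
      change cls c (H (ar u)).1 0 - (1 - (m + 1) * mn (cls c (H (ar u)).1)) = _
      rw [hcl1 0, mn_const _ _ hcl1]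
      field_simp
      ring
    have h9 := hGw 0
    rw [hw0 0, hG1] at h9
    have : (0 : ℝ) < 1 / (m + 1) := by positivity
    linarith

end Pool.Agent.W623.VR
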