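import Pool.Agent.W623.VR.Comb
import Pool.Agent.W623.VR.Top

/-!
# The homotopy group in degree 25
-/

set_option autoImplicit false

namespace Pool.Agent.W623.VR

open Finset

/-- vertices of the cube -/
abbrev Q : Type := Fin 27 → Bool

def xu (u : Q) (i : ℕ) : Bool := if h : i < 27 then u ⟨i, h⟩ else false

def vv (j : Fin 26) : Q := fun i => if i.1 < 26 then bb j.1 i.1 else false

def vv' (j : Fin 26) : Q := fun i => if i.1 < 26 then !(bb j.1 i.1) else false

lemma xu_vv (j : Fin 26) {i : ℕ} (hi : i < 26) : xu (vv j) i = bb j.1 i := by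
  unfold xu vv
  rw [dif_pos (by omega), if_pos hi]

lemma xu_vv' (j : Fin 26) {i : ℕ} (hi : i < 26) : xu (vv' j) i = !(bb j.1 i) := by
  unfold xu vv'
  rw [dif_pos (by omega), if_pos hi]

lemma dist_eq (u w : Q) : hammingDist u w = ∑ i ∈ range 27, if xu u i = xu w i then 0 else 1 := by
  unfold hammingDist
  rw [Finset.card_filter, Finset.sum_range]
  refine Finset.sum_congr rfl fun i _ => ?_
  have h : ∀ u : Q, xu u i.1 = u i := fun u => by
    unfold xu
    rw [dif_pos i.2]
  rw [h u, h w]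
  by_cases h' : u i = w i <;> simp [h']

lemma dd_le (u w : Q) (j : ℕ) (hw : ∀ i < 26, xu w i = bb j i) : dd (xu u) j ≤ hammingDist u w := by
  rw [dist_eq, Finset.sum_range_succ]
  unfold dd
  refine le_trans (le_of_eq ?_) (Nat.le_add_right _ _)
  refine Finset.sum_congr rfl fun i hi => ?_
  rw [hw i (mem_range.1 hi)]

lemma rows_inj : ∀ j k : Fin 26, (∀ i : Fin 26, bb j.1 i.1 = bb k.1 i.1) → j = k := by
  decide +kernel

lemma rows_ne : ∀ j k : Fin 26, ∃ i : Fin 26, (!(bb j.1 i.1)) ≠ bb k.1 i.1 := by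
  decide +kernel

lemma rows_dist : ∀ j k : Fin 26, j ≠ k → hammingDist (vv j) (vv k) ≤ 14 ∧
    hammingDist (vv j) (vv' k) ≤ 14 ∧ hammingDist (vv' j) (vv k) ≤ 14 ∧
    hammingDist (vv' j) (vv' k) ≤ 14 := by
  decide +kernel

open Classical in
/-- the class of a vertex -/
noncomputable def cc (u : Q) : Option (Fin 26) :=
  if h : ∃ j : Fin 26, dd (xu u) j.1 = 0 then some h.choose else none

lemma cc_some {u : Q} {j : Fin 26} (h : cc u = some j) : dd (xu u) j.1 = 0 := by
  unfold cc at h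
  split_ifs at h with h'
  rw [← Option.some.inj h]
  exact h'.choose_spec

lemma cc_ne_none {u : Q} (h : ∃ j : Fin 26, dd (xu u) j.1 = 0) : cc u ≠ none := by
  unfold cc
  rw [dif_pos h]
  simp

lemma cc_vv (j : Fin 26) : cc (vv j) = some j := by
  have hex : ∃ k : Fin 26, dd (xu (vv j)) k.1 = 0 := by
    refine ⟨j, ?_⟩
    unfold dd
    refine Finset.sum_eq_zero fun i hi => ?_
    rw [xu_vv j (mem_range.1 hi), if_pos rfl]
  obtain ⟨k, hk⟩ := Option.ne_none_iff_exists'.1 (cc_ne_none hex)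
  have hjk : j = k := by
    refine rows_inj j k fun i => ?_
    rw [← xu_vv j i.2]
    exact eq_of_dd (cc_some hk) i.2
  rw [hk, hjk]

lemma cc_vv' (j : Fin 26) : cc (vv' j) = none := by
  by_contra hne
  obtain ⟨k, hk⟩ := Option.ne_none_iff_exists'.1 hne
  obtain ⟨i, hi⟩ := rows_ne j k
  apply hi
  rw [← xu_vv' j i.2]
  exact eq_of_dd (cc_some hk) i.2

/-- simplices at scale 14 -/
def KK (T : Finset Q) : Prop := ∀ v ∈ T, ∀ w ∈ T, hammingDist v w ≤ 14

lemma KK_image (e : Fin 26 → Bool) :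
    KK (Finset.univ.image fun j => if e j then vv j else vv' j) := by
  intro v hv w hw
  rw [Finset.mem_image] at hv hw
  obtain ⟨j, _, rfl⟩ := hv
  obtain ⟨k, _, rfl⟩ := hw
  by_cases hjk : j = k
  · subst hjk
    rw [hammingDist_self]
    exact Nat.zero_le _
  · obtain ⟨h1, h2, h3, h4⟩ := rows_dist j k hjk
    split_ifs
    · exact h1
    · exact h2
    · exact h3
    · exact h4

lemma KK_max (T : Finset Q) (hT : KK T) (h : ∀ j, ∃ u ∈ T, cc u = some j) :
    ∀ u ∈ T, cc u ≠ none := by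
  intro u hu
  apply cc_ne_none
  obtain ⟨j, hj, h0⟩ := exists_row (xu u) (fun j hj => by
    obtain ⟨w, hw, hc⟩ := h ⟨j, hj⟩
    refine (dd_le u w j fun i hi => ?_).trans (hT u hu w hw)
    exact eq_of_dd (cc_some hc) hi)
  exact ⟨⟨j, hj⟩, h0⟩

theorem pi25 : ∃ x : real KK, ¬ Subsingleton (HomotopyGroup.Pi 25 (real KK) x) :=
  not_subsingleton 25 KK cc vv vv' cc_vv cc_vv' KK_image KK_max

/-- Paley matrix of order 28: sign of the entry -/
def qr (k : ℕ) : Bool :=
  (k % 13 == 1) || (k % 13 == 3) || (k % 13 == 4) || (k % 13 == 9) || (k % 13 == 10) || (k % 13 == 12)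

/-- `true` stands for the entry `-1` of the symmetric conference matrix of order `14` -/
def cf (i j : ℕ) : Bool := if i = 13 ∨ j = 13 then false else !(qr (i + 13 - j))

def hd (i j : ℕ) : Bool :=
  if i % 14 = j % 14 then (!(decide (i < 14)) || !(decide (j < 14)))
  else xor (cf (i % 14) (j % 14)) (!(decide (i < 14)) && !(decide (j < 14)))

def HH : Matrix (Fin (2 * 14)) (Fin (2 * 14)) ℤ := fun i j => if hd i.1 j.1 then -1 else 1

lemma HH_mul : ∀ i j : Fin (2 * 14), ∑ k, HH i k * HH j k = if i = j then 28 else 0 := by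
  decide +kernel

lemma HH_spec : HH * HH.transpose = (2 * ((14 : ℕ) : ℤ)) • (1 : Matrix (Fin (2 * 14)) (Fin (2 * 14)) ℤ) := by
  ext i j
  rw [Matrix.mul_apply, Matrix.smul_apply, Matrix.one_apply]
  have := HH_mul i j
  simp only [Matrix.transpose_apply]
  rw [this]
  split_ifs <;> norm_num

end Pool.Agent.W623.VR
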