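import Pool.Agent.W623.VR.Search

/-!
# The two runs of the search
-/

set_option autoImplicit false

namespace Pool.Agent.W623.VR

def lstA : List ((ℕ × ℕ) × (ℕ × ℕ)) :=
  [((0, 2380225041768974402), 0, 2380225041768974402),
  ((2380152403134513216, 72638634461186), 2322168560027650, 2377902873208946752),
  ((2251801963268162, 2377973239805706240), 72127962849216578, 2308097078919757824),
  ((2308094877749020672, 72130164019953730), 2305913380107452482, 74311661661521920),
  ((2308097008050700354, 72128033718274048), 70437532926016, 2380154604236048386),
  ((2308165177838667778, 72059863930306624), 72569982091266, 2380152471786883136),
  ((2305843011430449154, 74382030338525248), 70867028034, 2380224970901946368),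
  ((2380152473932267522, 72567836706880), 2324436300595266, 2377900605468379136),
  ((2254067625623554, 2377970974143350848), 72059793063346242, 2308165248705628160),
  ((2308167378944393216, 72057662824581186), 2308094809094553666, 72130232674420736),
  ((2305913446679445570, 74311595089528832), 74379764743340096, 2305845277025634306),
  ((2377902802276976642, 2322239491997760), 2377971040715341826, 2254001053632576),
  ((74379762597953538, 2305845279171020864), 2305915576981194816, 74309464787779586)]

def lstB : List ((ℕ × ℕ) × (ℕ × ℕ)) :=
  [((0, 2380225041768974402), 0, 2380225041768974402),
  ((2322168560027650, 2377902873208946752), 2380152403134513216, 72638634461186),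
  ((72127962849216578, 2308097078919757824), 2251801963268162, 2377973239805706240),
  ((2305913380107452482, 74311661661521920), 2308094877749020672, 72130164019953730),
  ((70437532926016, 2380154604236048386), 2308097008050700354, 72128033718274048),
  ((72569982091266, 2380152471786883136), 2308165177838667778, 72059863930306624),
  ((70867028034, 2380224970901946368), 2305843011430449154, 74382030338525248),
  ((2324436300595266, 2377900605468379136), 2380152473932267522, 72567836706880),
  ((72059793063346242, 2308165248705628160), 2254067625623554, 2377970974143350848),
  ((2308094809094553666, 72130232674420736), 2308167378944393216, 72057662824581186),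
  ((74379764743340096, 2305845277025634306), 2305913446679445570, 74311595089528832),
  ((2377971040715341826, 2254001053632576), 2377902802276976642, 2322239491997760),
  ((2305915576981194816, 74309464787779586), 74379762597953538, 2305845279171020864)]

lemma lstA_eq : ((List.range 13).map fun p => (pr ra p, pr rb p)) = lstA := by decide +kernel

lemma lstB_eq : ((List.range 13).map fun p => (pr rb p, pr ra p)) = lstB := by decide +kernel

lemma checkA : dfs1 lstA 2380225041768974402 1190112520884487201 [] = true := by decide +kernel

lemma checkB : dfs1 lstB 2380225041768974402 1190112520884487201 [] = true := by decide +kernel

lemma runA : run ra rb = true := by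
  unfold run
  rw [lstA_eq]
  exact checkA

lemma runB : run rb ra = true := by
  unfold run
  rw [lstB_eq]
  exact checkB

end Pool.Agent.W623.VR
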