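import Pool.Agent.W623.VR.Search
import Pool.Agent.W623.VR.Run

/-!
# The maximal simplex with 26 vertices at scale 14
-/

set_option autoImplicit false

namespace Pool.Agent.W623.VR

open Finset

/-- the twenty-six rows, for `j < 26`, `i < 26` -/
def bb (j i : ℕ) : Bool :=
  if j < 13 then ra j (i % 13) else xor (rb (j - 13) (i % 13)) (decide (13 ≤ i))

/-- number of disagreements on the first `26` coordinates -/
def dd (x : ℕ → Bool) (j : ℕ) : ℕ := ∑ i ∈ range 26, if x i = bb j i then 0 else 1

lemma dd_split (x : ℕ → Bool) (j : ℕ) : dd x j =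
    ∑ p ∈ range 13, ((if x p = bb j p then 0 else 1) +
      (if x (13 + p) = bb j (13 + p) then 0 else 1)) := by
  unfold dd
  rw [show (26 : ℕ) = 13 + 13 from rfl, Finset.sum_range_add, Finset.sum_add_distrib]

lemma sum_list (f : ℕ → ℕ) (n : ℕ) : ((List.range n).map f).sum = ∑ p ∈ range n, f p := by
  induction n with
  | zero => rfl
  | succ n ih =>
    rw [List.range_succ, List.map_append, List.sum_append, ih, Finset.sum_range_succ]
    simp

/-- equality type -/
def te (x : ℕ → Bool) (p : ℕ) : Bool := !(xor (x p) (x (13 + p)))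

lemma bb_lt {j p : ℕ} (hj : j < 13) (hp : p < 13) : bb j p = ra j p := by
  unfold bb
  rw [if_pos hj, Nat.mod_eq_of_lt hp]

lemma bb_lt' {j p : ℕ} (hj : j < 13) (hp : p < 13) : bb j (13 + p) = ra j p := by
  unfold bb
  rw [if_pos hj, Nat.add_mod_left, Nat.mod_eq_of_lt hp]

lemma bb_ge {j p : ℕ} (hp : p < 13) : bb (13 + j) p = rb j p := by
  unfold bb
  rw [if_neg (by omega), Nat.mod_eq_of_lt hp, Nat.add_sub_cancel_left]
  have : decide (13 ≤ p) = false := by
    rw [decide_eq_false_iff_not]; omega
  rw [this, Bool.xor_false]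

lemma bb_ge' {j p : ℕ} (hp : p < 13) : bb (13 + j) (13 + p) = !(rb j p) := by
  unfold bb
  rw [if_neg (by omega), Nat.add_mod_left, Nat.mod_eq_of_lt hp, Nat.add_sub_cancel_left]
  have : decide (13 ≤ 13 + p) = true := by
    rw [decide_eq_true_iff]; omega
  rw [this, Bool.xor_true]

lemma dd_A (x : ℕ → Bool) {j : ℕ} (hj : j < 13) :
    dd x j = ((List.range 13).map fun p => l1 ra (te x) x j p).sum := by
  rw [sum_list, dd_split]
  refine Finset.sum_congr rfl fun p hp => ?_
  rw [mem_range] at hp
  rw [bb_lt hj hp, bb_lt' hj hp]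
  unfold l1 ls te
  beta_reduce
  cases x p <;> cases x (13 + p) <;> cases ra j p <;> rfl

lemma dd_A' (x : ℕ → Bool) {j : ℕ} :
    dd x (13 + j) = ((List.range 13).map fun p => l2 rb (te x) x j p).sum := by
  rw [sum_list, dd_split]
  refine Finset.sum_congr rfl fun p hp => ?_
  rw [mem_range] at hp
  rw [bb_ge hp, bb_ge' hp]
  unfold l2 ls te
  beta_reduce
  cases x p <;> cases x (13 + p) <;> cases rb j p <;> rfl

lemma dd_B (x : ℕ → Bool) {j : ℕ} :
    dd x (13 + j) = ((List.range 13).map fun p => l1 rb (fun p => !(te x p)) x j p).sum := by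
  rw [sum_list, dd_split]
  refine Finset.sum_congr rfl fun p hp => ?_
  rw [mem_range] at hp
  rw [bb_ge hp, bb_ge' hp]
  unfold l1 ls te
  beta_reduce
  cases x p <;> cases x (13 + p) <;> cases rb j p <;> rfl

lemma dd_B' (x : ℕ → Bool) {j : ℕ} (hj : j < 13) :
    dd x j = ((List.range 13).map fun p => l2 ra (fun p => !(te x p)) x j p).sum := by
  rw [sum_list, dd_split]
  refine Finset.sum_congr rfl fun p hp => ?_
  rw [mem_range] at hp
  rw [bb_lt hj hp, bb_lt' hj hp]
  unfold l2 ls te
  beta_reduce
  cases x p <;> cases x (13 + p) <;> cases ra j p <;> rfl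

/-- parity of the distance to a row of the first class -/
lemma par_A (x : ℕ → Bool) {j : ℕ} (hj : j < 13) :
    dd x j % 2 = (∑ p ∈ range 13, if te x p = true then 0 else 1) % 2 := by
  rw [dd_split, Finset.sum_nat_mod, Finset.sum_nat_mod (range 13) 2 (fun p => if te x p = true then 0 else 1)]
  congr 1
  refine Finset.sum_congr rfl fun p hp => ?_
  rw [mem_range] at hp
  rw [bb_lt hj hp, bb_lt' hj hp]
  unfold te
  cases x p <;> cases x (13 + p) <;> cases ra j p <;> rfl

/-- parity of the distance to a row of the second class -/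
lemma par_B (x : ℕ → Bool) {j : ℕ} :
    dd x (13 + j) % 2 = (13 + ∑ p ∈ range 13, if te x p = true then 0 else 1) % 2 := by
  have h13 : (13 + ∑ p ∈ range 13, if te x p = true then 0 else 1) =
      ∑ p ∈ range 13, (1 + if te x p = true then 0 else 1) := by
    rw [Finset.sum_add_distrib]
    simp
  rw [h13, dd_split, Finset.sum_nat_mod,
    Finset.sum_nat_mod (range 13) 2 (fun p => 1 + if te x p = true then 0 else 1)]
  congr 1
  refine Finset.sum_congr rfl fun p hp => ?_
  rw [mem_range] at hp
  rw [bb_ge hp, bb_ge' hp]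
  unfold te
  cases x p <;> cases x (13 + p) <;> cases rb j p <;> rfl

/-- **maximality**: a point within distance `14` of all twenty-six rows is one of them -/
theorem exists_row (x : ℕ → Bool) (h : ∀ j < 26, dd x j ≤ 14) : ∃ j < 26, dd x j = 0 := by
  obtain ⟨e, he⟩ : ∃ e, e = ∑ p ∈ range 13, if te x p = true then 0 else 1 := ⟨_, rfl⟩
  rcases Nat.mod_two_eq_zero_or_one e with h0 | h0
  · -- second class at odd distance
    have hodd : ∀ j, dd x (13 + j) % 2 = 1 := fun j => by
      rw [par_B, ← he]; omega
    obtain ⟨j, hj, h1⟩ := run_sound rb ra runB (fun p => !(te x p)) x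
      (fun j hj => by
        rw [← dd_B]
        have h1 := hodd j
        have h2 := h (13 + j) (by omega)
        omega)
      (fun j hj => by
        rw [← dd_B' x hj]
        exact h j (by omega))
      (by rw [← dd_B]; exact hodd 0)
    rw [← dd_B' x hj] at h1
    exact ⟨j, by omega, h1⟩
  · have hodd : ∀ j < 13, dd x j % 2 = 1 := fun j hj => by
      rw [par_A x hj, ← he]; omega
    obtain ⟨j, hj, h1⟩ := run_sound ra rb runA (te x) x
      (fun j hj => by
        rw [← dd_A x hj]
        have h1 := hodd j hj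
        have h2 := h j (by omega)
        omega)
      (fun j hj => by
        rw [← dd_A' x]
        exact h (13 + j) (by omega))
      (by rw [← dd_A x (by norm_num)]; exact hodd 0 (by norm_num))
    rw [← dd_A' x] at h1
    exact ⟨13 + j, by omega, h1⟩

lemma eq_of_dd {x : ℕ → Bool} {j : ℕ} (h : dd x j = 0) {i : ℕ} (hi : i < 26) : x i = bb j i := by
  unfold dd at h
  rw [Finset.sum_eq_zero_iff] at h
  have := h i (mem_range.2 hi)
  by_contra hne
  rw [if_neg hne] at this
  exact one_ne_zero this

end Pool.Agent.W623.VR
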