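import Mathlib

/-!
# A finite search

Thirteen positions; at every position one of four choices.  The search `dfs1`/`dfs2` runs through
the choices with packed counters.
-/

set_option autoImplicit false

namespace Pool.Agent.W623.VR

/-- entry `-1` of the circulant matrix of the projective plane of order three
(difference set `{0,1,3,9}` modulo `13`). -/
def pm (k : ℕ) : Bool := (k % 13 == 0) || (k % 13 == 1) || (k % 13 == 3) || (k % 13 == 9)

/-- first class: the row `L`, normalised to have entry `+1` (`false`) at coordinate `0`; value at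
`p < 13`. -/
def ra (L p : ℕ) : Bool := xor (pm (p + 13 - L)) (pm (13 - L))

/-- second class: first half of the row. -/
def rb (j p : ℕ) : Bool := xor (pm j) (pm (j + 13 - p))

/-- pack a family of digits in base `32`. -/
def enc (f : ℕ → ℕ) : ℕ → ℕ
  | 0 => 0
  | n + 1 => f 0 + 32 * enc (fun i => f (i + 1)) n

def ok (s : ℕ) : Bool := Nat.beq (Nat.land s 19041800334151795216) 0

def leaf (s : ℕ) : Bool := (List.range 13).any fun j => (s / 32 ^ j) % 32 == 1

def dfs2 : List (ℕ × ℕ) → ℕ → Bool
  | [], s => leaf s
  | (d, e) :: t, s =>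
    (bif ok (s + d) then dfs2 t (s + d) else true) && (bif ok (s + e) then dfs2 t (s + e) else true)

def dfs1 : List ((ℕ × ℕ) × (ℕ × ℕ)) → ℕ → ℕ → List (ℕ × ℕ) → Bool
  | [], s1, s2, L => bif (Nat.beq (Nat.land s1 1) 1 && ok s2) then dfs2 L s2 else true
  | ((a, b), x) :: t, s1, s2, L =>
    (bif ok (s1 + a) then dfs1 t (s1 + a) (s2 + 1190112520884487201) L else true) &&
    ((bif ok (s1 + b) then dfs1 t (s1 + b) (s2 + 1190112520884487201) L else true) &&
    (bif ok (s1 + 1190112520884487201) then dfs1 t (s1 + 1190112520884487201) s2 (x :: L) else true))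

/-- the two packed loss vectors -/
def pr (f : ℕ → ℕ → Bool) (p : ℕ) : ℕ × ℕ :=
  (enc (fun j => bif f j p then 2 else 0) 13, enc (fun j => bif f j p then 0 else 2) 13)

lemma enc_add (f g : ℕ → ℕ) (n : ℕ) : enc (fun i => f i + g i) n = enc f n + enc g n := by
  induction n generalizing f g with
  | zero => rfl
  | succ n ih =>
    simp only [enc]
    rw [ih (fun i => f (i + 1)) (fun i => g (i + 1))]
    ring

lemma enc_congr (f g : ℕ → ℕ) (n : ℕ) (h : ∀ i < n, f i = g i) : enc f n = enc g n := by
  induction n generalizing f g with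
  | zero => rfl
  | succ n ih =>
    simp only [enc]
    rw [h 0 (Nat.succ_pos n), ih _ _ fun i hi => h (i + 1) (Nat.succ_lt_succ hi)]

lemma enc_ones : enc (fun _ => 1) 13 = 1190112520884487201 := by decide

lemma enc_mask : enc (fun _ => 16) 13 = 19041800334151795216 := by decide

lemma land_digit (a b c d : ℕ) (ha : a < 32) (hc : c < 32) :
    Nat.land (a + 32 * b) (c + 32 * d) = Nat.land a c + 32 * Nat.land b d := by
  have h32 : (32 : ℕ) = 2 ^ 5 := by norm_num
  have hac : Nat.land a c < 2 ^ 5 := by
    have : Nat.land a c ≤ a := Nat.and_le_left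
    omega
  apply Nat.eq_of_testBit_eq
  intro i
  change ((a + 32 * b) &&& (c + 32 * d)).testBit i = (Nat.land a c + 32 * Nat.land b d).testBit i
  rw [Nat.testBit_and, add_comm a, add_comm c, add_comm (Nat.land a c), h32,
    Nat.testBit_two_pow_mul_add _ (by omega), Nat.testBit_two_pow_mul_add _ (by omega),
    Nat.testBit_two_pow_mul_add _ hac]
  split_ifs
  · exact (Nat.testBit_and a c i).symm
  · exact (Nat.testBit_and b d (i - 5)).symm

lemma land_enc (f : ℕ → ℕ) (n : ℕ) (h : ∀ i < n, f i ≤ 15) :
    Nat.land (enc f n) (enc (fun _ => 16) n) = 0 := by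
  induction n generalizing f with
  | zero => exact (by decide : Nat.land 0 0 = 0)
  | succ n ih =>
    simp only [enc]
    have h0 := h 0 (Nat.succ_pos n)
    rw [land_digit _ _ _ _ (by omega) (by norm_num),
      ih _ fun i hi => h (i + 1) (Nat.succ_lt_succ hi)]
    have : ∀ a : ℕ, a ≤ 15 → Nat.land a 16 = 0 := by decide
    rw [this _ h0]

lemma ok_enc (f : ℕ → ℕ) (h : ∀ i < 13, f i ≤ 15) : ok (enc f 13) = true := by
  unfold ok
  rw [← enc_mask, land_enc f 13 h]
  rfl

lemma enc_digit (f : ℕ → ℕ) (n : ℕ) (h : ∀ i < n, f i < 32) (j : ℕ) (hj : j < n) :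
    (enc f n / 32 ^ j) % 32 = f j := by
  induction n generalizing f j with
  | zero => omega
  | succ n ih =>
    simp only [enc]
    have h0 := h 0 (Nat.succ_pos n)
    cases j with
    | zero =>
      rw [pow_zero, Nat.div_one]
      omega
    | succ j =>
      rw [pow_succ', ← Nat.div_div_eq_div_mul, Nat.add_mul_div_left _ _ (by norm_num),
        Nat.div_eq_of_lt h0, zero_add]
      exact ih _ (fun i hi => h (i + 1) (Nat.succ_lt_succ hi)) j (Nat.lt_of_succ_lt_succ hj)

lemma leaf_enc (f : ℕ → ℕ) (h : ∀ i < 13, f i ≤ 15) (hl : leaf (enc f 13) = true) :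
    ∃ j < 13, f j = 1 := by
  unfold leaf at hl
  rw [List.any_eq_true] at hl
  obtain ⟨j, hj, hl⟩ := hl
  rw [List.mem_range] at hj
  refine ⟨j, hj, ?_⟩
  rw [enc_digit f 13 (fun i hi => by have := h i hi; omega) j hj] at hl
  exact beq_iff_eq.1 hl

/-- loss of the choice `w` for the row `j` at position `p` -/
def ls (f : ℕ → ℕ → Bool) (w : ℕ → Bool) (j p : ℕ) : ℕ := if f j p = w p then 0 else 2

lemma ls_le (f : ℕ → ℕ → Bool) (w : ℕ → Bool) (j p : ℕ) : ls f w j p ≤ 2 := by
  unfold ls
  split_ifs <;> norm_num

lemma pr_eq (f : ℕ → ℕ → Bool) (w : ℕ → Bool) (p : ℕ) :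
    (bif w p then (pr f p).2 else (pr f p).1) = enc (fun j => ls f w j p) 13 := by
  unfold pr ls
  cases hw : w p
  · refine enc_congr _ _ _ fun i _ => ?_
    cases f i p <;> simp
  · refine enc_congr _ _ _ fun i _ => ?_
    cases f i p <;> simp

lemma dfs2_sound (g : ℕ → ℕ → Bool) (w : ℕ → Bool) (qs : List ℕ) (F : ℕ → ℕ)
    (h : dfs2 (qs.map (pr g)) (enc F 13) = true)
    (hF : ∀ j < 13, F j + (qs.map fun q => ls g w j q).sum ≤ 15) :
    leaf (enc (fun j => F j + (qs.map fun q => ls g w j q).sum) 13) = true := by
  induction qs generalizing F with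
  | nil => simpa [dfs2] using h
  | cons q qs ih =>
    simp only [List.map_cons, List.sum_cons] at hF ⊢
    have key : dfs2 (qs.map (pr g)) (enc (fun j => F j + ls g w j q) 13) = true := by
      rw [List.map_cons] at h
      have hok : ok (enc (fun j => F j + ls g w j q) 13) = true :=
        ok_enc _ fun i hi => by have := hF i hi; omega
      have he : enc (fun j => F j + ls g w j q) 13 =
          enc F 13 + (bif w q then (pr g q).2 else (pr g q).1) := by
        rw [pr_eq, enc_add]
      rw [he] at hok ⊢
      have h' : ((bif ok (enc F 13 + (pr g q).1) then dfs2 (qs.map (pr g)) (enc F 13 + (pr g q).1)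
          else true) && (bif ok (enc F 13 + (pr g q).2) then
            dfs2 (qs.map (pr g)) (enc F 13 + (pr g q).2) else true)) = true := h
      rw [Bool.and_eq_true] at h'
      cases hw : w q
      · rw [hw] at hok
        simp only [cond_false] at hok ⊢
        have := h'.1
        rwa [hok, cond_true] at this
      · rw [hw] at hok
        simp only [cond_true] at hok ⊢
        have := h'.2
        rwa [hok, cond_true] at this
    have := ih (fun j => F j + ls g w j q) key fun j hj => by have := hF j hj; omega
    have he : (fun j => F j + (ls g w j q + (qs.map fun q => ls g w j q).sum)) =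
        fun j => F j + ls g w j q + (qs.map fun q => ls g w j q).sum := by
      funext j; ring
    rw [he]
    exact this

/-- first counter: type one positions lose `ls f`, the others one. -/
def l1 (f : ℕ → ℕ → Bool) (t w : ℕ → Bool) (j p : ℕ) : ℕ := bif t p then ls f w j p else 1

/-- second counter -/
def l2 (g : ℕ → ℕ → Bool) (t w : ℕ → Bool) (j p : ℕ) : ℕ := bif t p then 1 else ls g w j p

lemma dfs1_sound (f g : ℕ → ℕ → Bool) (t w : ℕ → Bool) (ps qs : List ℕ) (F1 F2 : ℕ → ℕ)
    (h : dfs1 (ps.map fun p => (pr f p, pr g p)) (enc F1 13) (enc F2 13) (qs.map (pr g)) = true)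
    (hF1 : ∀ j < 13, F1 j + (ps.map fun p => l1 f t w j p).sum ≤ 15)
    (hF2 : ∀ j < 13, F2 j + (ps.map fun p => l2 g t w j p).sum +
      (qs.map fun q => ls g w j q).sum ≤ 15)
    (hodd : (F1 0 + (ps.map fun p => l1 f t w 0 p).sum) % 2 = 1) :
    ∃ j < 13, F2 j + (ps.map fun p => l2 g t w j p).sum + (qs.map fun q => ls g w j q).sum = 1 := by
  induction ps generalizing F1 F2 qs with
  | nil =>
    simp only [List.map_nil, List.sum_nil, add_zero] at h hF1 hF2 hodd ⊢
    have h1 : Nat.beq (Nat.land (enc F1 13) 1) 1 = true := by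
      have h2 : Nat.land (enc F1 13) 1 = enc F1 13 % 2 := Nat.and_one_is_mod _
      have h3 : enc F1 13 % 2 = 1 := by
        change (F1 0 + 32 * enc (fun i => F1 (i + 1)) 12) % 2 = 1
        omega
      rw [h2, h3]
      rfl
    have h2 : ok (enc F2 13) = true := ok_enc _ fun i hi => by have := hF2 i hi; omega
    have h3 : dfs2 (qs.map (pr g)) (enc F2 13) = true := by
      have h' : (bif (Nat.beq (Nat.land (enc F1 13) 1) 1 && ok (enc F2 13)) then
        dfs2 (qs.map (pr g)) (enc F2 13) else true) = true := h
      rwa [h1, h2, Bool.and_self, cond_true] at h'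
    exact leaf_enc _ hF2 (dfs2_sound g w qs F2 h3 hF2)
  | cons p ps ih =>
    simp only [List.map_cons, List.sum_cons] at hF1 hF2 hodd ⊢
    rw [List.map_cons] at h
    have h' : ((bif ok (enc F1 13 + (pr f p).1) then
        dfs1 (ps.map fun p => (pr f p, pr g p)) (enc F1 13 + (pr f p).1)
          (enc F2 13 + 1190112520884487201) (qs.map (pr g)) else true) &&
      ((bif ok (enc F1 13 + (pr f p).2) then
        dfs1 (ps.map fun p => (pr f p, pr g p)) (enc F1 13 + (pr f p).2)
          (enc F2 13 + 1190112520884487201) (qs.map (pr g)) else true) &&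
      (bif ok (enc F1 13 + 1190112520884487201) then
        dfs1 (ps.map fun p => (pr f p, pr g p)) (enc F1 13 + 1190112520884487201) (enc F2 13)
          (pr g p :: qs.map (pr g)) else true))) = true := h
    rw [Bool.and_eq_true, Bool.and_eq_true] at h'
    obtain ⟨ha, hb, hc⟩ := h'
    have hok : ok (enc (fun j => F1 j + l1 f t w j p) 13) = true :=
      ok_enc _ fun i hi => by have := hF1 i hi; omega
    cases ht : t p
    · -- type two
      have he : enc (fun j => F1 j + l1 f t w j p) 13 = enc F1 13 + 1190112520884487201 := by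
        rw [← enc_ones, ← enc_add]
        refine enc_congr _ _ _ fun i _ => ?_
        simp [l1, ht]
      rw [he] at hok
      rw [hok, cond_true, ← he] at hc
      have hl2 : ∀ j, l2 g t w j p = ls g w j p := fun j => by simp [l2, ht]
      obtain ⟨j, hj, hfin⟩ := ih (p :: qs) (fun j => F1 j + l1 f t w j p) F2 hc
        (fun j hj => by have := hF1 j hj; omega)
        (fun j hj => by
          have := hF2 j hj
          rw [hl2 j] at this
          simp only [List.map_cons, List.sum_cons]
          omega)
        (by omega)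
      refine ⟨j, hj, ?_⟩
      simp only [List.map_cons, List.sum_cons] at hfin
      rw [hl2 j]
      omega
    · -- type one
      have he2 : enc F2 13 + 1190112520884487201 = enc (fun j => F2 j + l2 g t w j p) 13 := by
        rw [← enc_ones, ← enc_add]
        refine enc_congr _ _ _ fun i _ => ?_
        simp [l2, ht]
      have he : enc (fun j => F1 j + l1 f t w j p) 13 =
          enc F1 13 + (bif w p then (pr f p).2 else (pr f p).1) := by
        rw [pr_eq, ← enc_add]
        refine enc_congr _ _ _ fun i _ => ?_
        simp [l1, ht]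
      have key : dfs1 (ps.map fun p => (pr f p, pr g p)) (enc (fun j => F1 j + l1 f t w j p) 13)
          (enc (fun j => F2 j + l2 g t w j p) 13) (qs.map (pr g)) = true := by
        rw [he, ← he2]
        rw [he] at hok
        cases hw : w p
        · rw [hw, cond_false] at hok
          rw [cond_false]
          rw [hok, cond_true] at ha
          exact ha
        · rw [hw, cond_true] at hok
          rw [cond_true]
          rw [hok, cond_true] at hb
          exact hb
      obtain ⟨j, hj, hfin⟩ := ih qs _ _ key
        (fun j hj => by have := hF1 j hj; omega)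
        (fun j hj => by have := hF2 j hj; omega)
        (by omega)
      exact ⟨j, hj, by omega⟩

/-- the whole search -/
def run (f g : ℕ → ℕ → Bool) : Bool :=
  dfs1 ((List.range 13).map fun p => (pr f p, pr g p)) 2380225041768974402 1190112520884487201 []

lemma enc_twos : enc (fun _ => 2) 13 = 2380225041768974402 := by decide

lemma run_sound (f g : ℕ → ℕ → Bool) (h : run f g = true) (t w : ℕ → Bool)
    (h1 : ∀ j < 13, ((List.range 13).map fun p => l1 f t w j p).sum ≤ 13)
    (h2 : ∀ j < 13, ((List.range 13).map fun p => l2 g t w j p).sum ≤ 14)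
    (hodd : ((List.range 13).map fun p => l1 f t w 0 p).sum % 2 = 1) :
    ∃ j < 13, ((List.range 13).map fun p => l2 g t w j p).sum = 0 := by
  have h' : dfs1 ((List.range 13).map fun p => (pr f p, pr g p)) (enc (fun _ => 2) 13)
      (enc (fun _ => 1) 13) (([] : List ℕ).map (pr g)) = true := by
    rw [enc_twos, enc_ones, List.map_nil]
    unfold run at h
    exact h
  clear h
  generalize List.range 13 = ps at *
  obtain ⟨j, hj, hfin⟩ := dfs1_sound f g t w ps [] (fun _ => 2) (fun _ => 1) h'
    (fun j hj => by have := h1 j hj; omega)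
    (fun j hj => by
      have := h2 j hj
      simp only [List.map_nil, List.sum_nil]
      omega)
    (by omega)
  refine ⟨j, hj, ?_⟩
  simp only [List.map_nil, List.sum_nil] at hfin
  omega

end Pool.Agent.W623.VR
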